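import Mathlib
import Pool.Agent.N732.ArbSets

/-!
# Waring's problem for generic polynomials: `2k` variables in arbitrary sets and one prime

For every `k ≥ 2`, every fixed leading coefficient `c > 0` and almost every choice of the lower
coefficients `θ` (Lebesgue measure on `ℝ ^ (k - 1)`), for all constant terms `b`, with
`P x = c x ^ k + θ_{k-2} x ^ (k-1) + ... + θ_0 x + b`:

1. there is `δ > 0` such that for ARBITRARY sets `T`, `T'` of `k`-tuples of the box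
   `∏ [2 i X, (2 i + 1) X]`, `i = 1, ..., k`, with `|T| |T'| ≥ X ^ (2k - δ)` (`X` a large power of `2`),
   every integer `N` of the size `X ^ k` has at least `κ |T| |T'| / (X ^ (k-1) log N)` representations
   `N = ∑ ⌊P(t_i)⌋ + ∑ ⌊P(t'_i)⌋ + ⌊P(p)⌋`, `t ∈ T`, `t' ∈ T'`, `p` prime (the expected order);
2. there is `δ > 0` such that for ARBITRARY sets `A_1, ..., A_k, A'_1, ..., A'_k` of natural numbers,
   each with at least `x ^ (1 - δ)` elements between `x` and `(1 + 1 / (2k)) x` for all large `x`, every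
   large integer is `∑ ⌊P(a_i)⌋ + ∑ ⌊P(a'_i)⌋ + ⌊P(p)⌋` with `a_i ∈ A_i`, `a'_i ∈ A'_i` and `p` prime.
-/

set_option autoImplicit false

namespace Pool.Agent.Results.MP_efcac8_nt.ArbitrarySets

open MeasureTheory

/-- the real polynomial `c x ^ k + θ_{k-2} x ^ (k-1) + ... + θ_0 x + b` -/
noncomputable def poly (k : ℕ) (c b : ℝ) (θ : Fin (k - 1) → ℝ) (x : ℝ) : ℝ :=
  c * x ^ k + ∑ j : Fin (k - 1), θ j * x ^ ((j : ℕ) + 1) + b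

/-- the sum of the integer parts of the values of `P` at the coordinates of `n` -/
noncomputable def val (P : ℝ → ℝ) {k : ℕ} (n : Fin k → ℕ) : ℤ := ∑ i, ⌊P (n i)⌋

/-- the tuples whose coordinate `i` (from `0` to `k - 1`) lies in `[2 (i + 1) X, (2 (i + 1) + 1) X]` -/
def box (k X : ℕ) : Finset (Fin k → ℕ) :=
  Fintype.piFinset fun i => Finset.Icc (2 * ((i : ℕ) + 1) * X) ((2 * ((i : ℕ) + 1) + 1) * X)

/-- `A` has at least `x ^ (1 - δ)` elements `a` with `x < a ≤ (1 + 1 / (2 k)) x`, for all large `x` -/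
def LocallyLarge (k : ℕ) (δ : ℝ) (A : Set ℕ) : Prop := ∃ x0 : ℕ, ∀ x : ℕ, x0 ≤ x →
  (x : ℝ) ^ (1 - δ) ≤ ({a : ℕ | a ∈ A ∧ x < a ∧ 2 * k * a ≤ (2 * k + 1) * x}.ncard : ℝ)

theorem result (k : ℕ) (hk : 2 ≤ k) (c : ℝ) (hc : 0 < c) :
    ∀ᵐ θ : Fin (k - 1) → ℝ, ∀ b : ℝ,
      (∃ δ κ : ℝ, 0 < δ ∧ 0 < κ ∧ ∃ v ν0 : ℕ, 1 ≤ v ∧ ∀ ν : ℕ, ν0 ≤ ν →
        ∀ T T' : Finset (Fin k → ℕ), T ⊆ box k (2 ^ ν) → T' ⊆ box k (2 ^ ν) →
          ((2 : ℝ) ^ ν) ^ (2 * (k : ℝ) - δ) ≤ T.card * T'.card →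
        ∀ N : ℕ, v * (2 ^ ν) ^ k ≤ N → N ≤ 2 ^ k * (v * (2 ^ ν) ^ k) →
          ∃ S : Finset ((Fin k → ℕ) × (Fin k → ℕ) × ℕ),
            (∀ z ∈ S, z.1 ∈ T ∧ z.2.1 ∈ T' ∧ z.2.2.Prime ∧
              val (poly k c b θ) z.1 + val (poly k c b θ) z.2.1 + ⌊poly k c b θ z.2.2⌋ = N) ∧
            κ * (T.card * T'.card) / (((2 : ℝ) ^ ν) ^ (k - 1) * Real.log N) ≤ S.card) ∧
      (∃ δ : ℝ, 0 < δ ∧ ∀ A A' : Fin k → Set ℕ, (∀ i, LocallyLarge k δ (A i)) →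
        (∀ i, LocallyLarge k δ (A' i)) → ∃ N0 : ℕ, ∀ N : ℕ, N0 ≤ N →
          ∃ (a a' : Fin k → ℕ) (p : ℕ), (∀ i, a i ∈ A i) ∧ (∀ i, a' i ∈ A' i) ∧ p.Prime ∧
            val (poly k c b θ) a + val (poly k c b θ) a' + ⌊poly k c b θ p⌋ = N) := by
  obtain ⟨d, rfl⟩ : ∃ d, k = d + 1 := ⟨k - 1, by omega⟩
  have hd : 1 ≤ d := by omega
  have h := Pool.Agent.N604.MW.generic d c hd hc
  show ∀ᵐ θ : Fin d → ℝ, ∀ b : ℝ, _
  filter_upwards [h] with θ hθ b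
  obtain ⟨v, C0, κ, σ, hκ, hσ, ν0, hS⟩ := Pool.Agent.N732.Arb.scale_core d c b θ hd hc hθ.1 hθ.2
  refine ⟨?_, ?_⟩
  · obtain ⟨ν1, h1⟩ := Pool.Agent.N732.Arb.part1' hd hS
    refine ⟨σ / 4, κ, by linarith, hκ, 2 * v + 1, ν1, by omega, ?_⟩
    intro ν hν T T' hT hT' hcard N hN1 hN2
    have hcast : ((2 : ℝ) ^ ν) = ((2 ^ ν : ℕ) : ℝ) := by push_cast; ring
    obtain ⟨S, hS1, hS2⟩ := h1 ν hν T T' hT hT' (by
      rw [← hcast]
      have e1 : 2 * ((d : ℝ) + 1) - σ / 4 = 2 * ((d + 1 : ℕ) : ℝ) - σ / 4 := by push_cast; ring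
      rw [e1]
      exact hcard) N hN1 hN2
    refine ⟨S, hS1, ?_⟩
    rw [hcast]
    exact hS2
  · obtain ⟨σ', hσ', hσ1, hS'⟩ : ∃ σ' : ℝ, 0 < σ' ∧ σ' ≤ 1 ∧
        ∀ ν : ℕ, ν0 ≤ ν → Pool.Agent.N732.Arb.Scale d c b θ v C0 κ σ' (2 ^ ν) :=
      ⟨min σ 1, lt_min hσ one_pos, min_le_right _ _, fun ν hν =>
        Pool.Agent.N732.Arb.Scale.mono (min_le_left _ _) Nat.one_le_two_pow (hS ν hν)⟩
    refine ⟨σ' / (8 * ((d : ℝ) + 1)), by positivity, fun A A' hA hA' => ?_⟩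
    exact Pool.Agent.N732.Arb.part2' hκ hσ1 hd hS' A A' hA hA'

end Pool.Agent.Results.MP_efcac8_nt.ArbitrarySets
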