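import Mathlib
import Pool.Agent.N604.MW.XFin2

/-!
# Waring–Goldbach with generic real exponents

(a) For almost every `(c_1, ..., c_s) ∈ (1, ∞) ^ s` with `1/c_1 + ... + 1/c_s > 2`, every large integer `N` has at
least `κ N ^ (1/c_1 + ... + 1/c_s - 1) / (log N) ^ s` representations `N = ⌊p_1 ^ c_1⌋ + ... + ⌊p_s ^ c_s⌋` with
primes `p_i` (the order of magnitude predicted by the circle method).

(b) In particular: for every `k`, and almost all `(c_1, ..., c_{2k+1})` with `1 < c_i < k + 1/2`, every large integer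
is a sum of `2k+1` terms `⌊p_i ^ c_i⌋`.

(c) For arbitrary fixed sets `A_1, ..., A_s` with at least `X ^ (1 - o(1))` elements in `[X, 2X)` and almost every
`(c_1, ..., c_{s+1}) ∈ (1, ∞) ^ (s+1)` with `1/c_1 + ... + 1/c_{s+1} > 2`, every large integer is
`⌊a_1 ^ c_1⌋ + ... + ⌊a_s ^ c_s⌋ + ⌊p ^ c_{s+1}⌋` with `a_i ∈ A_i` and a prime `p`.
-/

namespace Pool.Agent.Results.MP_efcac8_nt.GenericExponents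

open MeasureTheory

theorem result :
    (∀ s : ℕ, ∀ᵐ c : Fin s → ℝ, (∀ i, 1 < c i) → 2 < ∑ i, 1 / c i →
      ∃ κ : ℝ, 0 < κ ∧ ∃ N0 : ℕ, ∀ N : ℕ, N0 ≤ N → ∃ S : Finset (Fin s → ℕ),
        (∀ p ∈ S, (∀ i, (p i).Prime) ∧ ∑ i, ⌊(p i : ℝ) ^ (c i)⌋ = (N : ℤ)) ∧
        κ * (N : ℝ) ^ (∑ i, 1 / c i - 1) / Real.log N ^ s ≤ S.card) ∧
    (∀ k : ℕ, ∀ᵐ c : Fin (2 * k + 1) → ℝ, (∀ i, 1 < c i ∧ c i < k + 1 / 2) →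
      ∃ N0 : ℕ, ∀ N : ℕ, N0 ≤ N → ∃ p : Fin (2 * k + 1) → ℕ, (∀ i, (p i).Prime) ∧
        ∑ i, ⌊(p i : ℝ) ^ (c i)⌋ = (N : ℤ)) ∧
    (∀ (s : ℕ) (A : Fin s → Set ℕ),
      (∀ i, ∀ ε : ℝ, 0 < ε → ∃ X0 : ℕ, ∀ X : ℕ, X0 ≤ X →
        (X : ℝ) ^ (1 - ε) ≤ ({a : ℕ | a ∈ A i ∧ X ≤ a ∧ a < 2 * X}.ncard : ℝ)) →
      ∀ᵐ c : Fin (s + 1) → ℝ, (∀ i, 1 < c i) → 2 < ∑ i, 1 / c i →
        ∃ N0 : ℕ, ∀ N : ℕ, N0 ≤ N → ∃ (a : Fin s → ℕ) (p : ℕ), (∀ i, a i ∈ A i) ∧ p.Prime ∧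
          ∑ i : Fin s, ⌊(a i : ℝ) ^ (c (Fin.castSucc i))⌋ + ⌊(p : ℝ) ^ (c (Fin.last s))⌋ = (N : ℤ)) := by
  refine ⟨Pool.Agent.N604.MW.xgen1_all, Pool.Agent.N604.MW.xcor1, ?_⟩
  intro s A hA
  exact Pool.Agent.N604.MW.xgen1s_all s A hA

end Pool.Agent.Results.MP_efcac8_nt.GenericExponents
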