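import Mathlib
import Pool.Agent.N604.MW.KFin2

/-!
# Waring–Goldbach for generic polynomials: `k + 11` primes

For every `k ≥ 10`, all positive leading coefficients `c_i`, all constant terms `b_i` and almost all lower
coefficients `θ_i ∈ ℝ ^ (k - 1)`, `i ≤ k + 11`, every large integer `N` has at least
`κ N ^ (11 / k) / (log N) ^ (k + 11)` representations `N = ⌊P_1(p_1)⌋ + ... + ⌊P_{k+11}(p_{k+11})⌋` with primes
`p_i`, where `P_i x = c_i x ^ k + θ_{i,k-2} x ^ (k-1) + ... + θ_{i,0} x + b_i`. This is the order of magnitude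
predicted by the circle method.
-/

namespace Pool.Agent.Results.MP_efcac8_nt.GenericKPlusEleven

open MeasureTheory

/-- the real polynomial `c x ^ k + θ_{k-2} x ^ (k-1) + ... + θ_0 x + b` -/
noncomputable def poly (k : ℕ) (c b : ℝ) (θ : Fin (k - 1) → ℝ) (x : ℝ) : ℝ :=
  c * x ^ k + ∑ j : Fin (k - 1), θ j * x ^ ((j : ℕ) + 1) + b

theorem result (k : ℕ) (hk : 10 ≤ k) (c b : Fin (k + 11) → ℝ) (hc : ∀ i, 0 < c i) :
    ∀ᵐ θ : Fin (k + 11) → Fin (k - 1) → ℝ, ∃ κ : ℝ, 0 < κ ∧ ∃ N0 : ℕ, ∀ N : ℕ, N0 ≤ N →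
      ∃ S : Finset (Fin (k + 11) → ℕ),
        (∀ p ∈ S, (∀ i, (p i).Prime) ∧ ∑ i, ⌊poly k (c i) (b i) (θ i) (p i)⌋ = (N : ℤ)) ∧
        κ * (N : ℝ) ^ (11 / (k : ℝ)) / Real.log N ^ (k + 11) ≤ S.card := by
  obtain ⟨d, rfl⟩ : ∃ d, k = d + 1 := ⟨k - 1, by omega⟩
  have hd : 9 ≤ d := by omega
  have h := Pool.Agent.N604.MW.kgen Pool.Agent.N604.MW.bc_all d (d + 11) ((d + 9) / 8) (by omega) (by omega) (by omega)
    (by omega) (by omega) (by omega) (by omega) (by omega) (by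
      have h1 : d + 2 ≤ 8 * ((d + 9) / 8) := by omega
      nlinarith) c b hc
  filter_upwards [h] with θ hθ
  obtain ⟨κ', hκ', N0, hN⟩ := hθ
  refine ⟨κ', hκ', N0, fun N hN0 => ?_⟩
  obtain ⟨S, hS, hcard⟩ := hN N hN0
  refine ⟨S, hS, ?_⟩
  have e1 : (((d + 11 : ℕ) : ℝ) - d) / ((d : ℝ) + 1) = 11 / ((d + 1 : ℕ) : ℝ) := by push_cast; ring
  rw [e1] at hcard
  exact hcard

end Pool.Agent.Results.MP_efcac8_nt.GenericKPlusEleven
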