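import Mathlib
import Pool.Agent.N604.MW.Fin
import Pool.Agent.N97.MW_Weyl

/-!
# Waring's problem for generic polynomials: `2k + 1` summands

For every `k ≥ 2`, every fixed leading coefficient `c > 0` and almost every choice of the lower
coefficients `θ` (with respect to Lebesgue measure on `ℝ ^ (k - 1)`), for all constant terms `b`, every
large integer `N` has at least `κ N ^ (1 + 1/k)` representations as a sum of `2k + 1` integer parts
`⌊P n⌋` with positive integers `n`, where `P x = c x ^ k + θ_{k-2} x ^ (k-1) + ... + θ_0 x + b`.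
The power `N ^ (1 + 1/k)` is the order of magnitude predicted by the circle method.
-/

namespace Pool.Agent.Results.MP_efcac8_nt.GenericPolynomials

open MeasureTheory

/-- the real polynomial `c x ^ k + θ_{k-2} x ^ (k-1) + ... + θ_0 x + b` -/
noncomputable def poly (k : ℕ) (c b : ℝ) (θ : Fin (k - 1) → ℝ) (x : ℝ) : ℝ :=
  c * x ^ k + ∑ j : Fin (k - 1), θ j * x ^ ((j : ℕ) + 1) + b

theorem result (k : ℕ) (hk : 2 ≤ k) (c : ℝ) (hc : 0 < c) :
    ∀ᵐ θ : Fin (k - 1) → ℝ, ∀ b : ℝ, ∃ κ : ℝ, 0 < κ ∧ ∃ N0 : ℕ, ∀ N : ℕ, N0 ≤ N →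
      ∃ S : Finset (Fin (2 * k + 1) → ℕ),
        (∀ n ∈ S, (∀ i, 0 < n i) ∧ ∑ i, ⌊poly k c b θ (n i)⌋ = (N : ℤ)) ∧
        κ * (N : ℝ) ^ (1 + 1 / (k : ℝ)) ≤ S.card := by
  obtain ⟨d, rfl⟩ : ∃ d, k = d + 1 := ⟨k - 1, by omega⟩
  have hd : 1 ≤ d := by omega
  have h := Pool.Agent.N604.MW.generic d c hd hc
  show ∀ᵐ θ : Fin d → ℝ, ∀ b : ℝ, _
  filter_upwards [h] with θ hθ b
  obtain ⟨v, C0, κ, σ, hκ, hσ, ν0, hcore⟩ := Pool.Agent.N604.MW.core_generic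
    Pool.Agent.N97.MW.weyl d c b θ hd hc hθ.1 hθ.2
  obtain ⟨κ', hκ', N0, hN⟩ := Pool.Agent.N604.MW.part1 hκ hcore (2 * (d + 1) + 1) (by ring)
  refine ⟨κ', hκ', N0, fun N hN0 => ?_⟩
  obtain ⟨S, hS, hcard⟩ := hN N hN0
  refine ⟨S, hS, ?_⟩
  push_cast
  exact hcard

end Pool.Agent.Results.MP_efcac8_nt.GenericPolynomials
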